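import Pool.Agent.Run7.h347.Bridge
import Pool.Agent.Run7.h347.Check
import Pool.Agent.Run7.h347.Core18
import Pool.Agent.Run7.h347.Piece
import Pool.Agent.Run7.h347.Lam
import Pool.Agent.Run7.h78.MP33_T
import Pool.Agent.Run7.h78.MP33_AMALGAM
import Pool.Agent.Run7.h78.MP33_SURFACE
import Pool.Agent.Run7.h78.MP33_NORM
import Pool.Agent.Run7.h78.MP33_HECKE
import Pool.Agent.Run7.h270.MP33_BOUNDARY
import Pool.Agent.Run7.h181.MP33.AUT

set_option autoImplicit false

/-! There is an admissible subgroup `G` of the mapping class group of genus two for which no
continuous `G`-equivariant map from the circle at infinity to the space of projective measured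
laminations exists. All definitions are in `Pool.Agent.Run7.h347.Stmt`. -/

open MatrixGroups Run7.h347.St

namespace Pool.Agent.Results.MP_33f4db_gt.NoBoundaryMap

/-- There are an admissible subgroup `G = ⟨A, φ A φ⁻¹⟩` of the mapping class group of genus two
(`A` in the Veech group of the double pentagon, `d` the generator of its cusp subgroup, `φ`
commuting with `d` and fixing both core curves of the multitwist `d`) such that for every
realisation `ρ` of `G` as a uniform lattice of the hyperbolic plane there is no continuous
`G`-equivariant map from the circle at infinity to the space of projective measured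
laminations. -/
theorem result : ∃ (A : Subgroup M) (d φ : M), Admissible A d φ ∧ FixesCores φ ∧
    ∀ ρ : Grp A φ →* SL(2, ℝ), IsUniformLattice ρ →
      ¬ ∃ f : OnePoint ℝ → PML, Continuous f ∧
        ∀ (m : Grp A φ) (ξ : OnePoint ℝ), f (bdry ρ m ξ) = act m.1 (f ξ) :=
  statement_of_old (Run7.h347.statement_of Run7.h78.MP33H.statementNorm
    Run7.h78.MP33H.statementHyp Run7.h78.MP33H.statementHecke Run7.h347.statementPiece
    Run7.h78.MP33.statementT Run7.h78.MP33A.statementAmalgam Run7.h78.MP33S.statementSurface
    Run7.h347.statementLam Run7.h270.statementBoundary Run7.h181.MP33.statementAut)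

end Pool.Agent.Results.MP_33f4db_gt.NoBoundaryMap
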